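import Pool.Agent.H85.TU.Targets2

/-!
# Vaught's conjecture, quantifier patterns (MP_5607ba_lc), row B3A: sorts and equality of points
of sort `false`
-/

set_option autoImplicit false

open Set Pool.Agent.H85.TU

namespace Pool.Agent.H14.TU

private theorem comp_two (u v : ℕ) (i j : Fin 2) (a b : ℕ) (ha : ![u, v] i = a)
    (hb : ![u, v] j = b) : ![u, v] ∘ ![i, j] = ![a, b] := by
  refine funext fun k => ?_
  revert k
  change ∀ k : Fin 2, _
  intro k
  fin_cases k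
  · exact ha
  · exact hb

theorem pf_B3A : T_B3A := by
  intro C α z hG
  have e01 : ∀ u v, LL (tp z ![u, v]) 0 1 = zl z u v := fun u v =>
    congrArg (z ()) (comp_two u v 0 1 u v rfl rfl)
  have e10 : ∀ u v, LL (tp z ![u, v]) 1 0 = zl z v u := fun u v =>
    congrArg (z ()) (comp_two u v 1 0 v u rfl rfl)
  have e00 : ∀ u v, LL (tp z ![u, v]) 0 0 = zl z u u := fun u v =>
    congrArg (z ()) (comp_two u v 0 0 u u rfl rfl)
  have hsort : ∀ u v, (zl z u v).1 = (zl z u u).1 ∧ (zl z u v).2.1 = (zl z v v).1 := by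
    intro u v
    obtain ⟨⟨a1, -, -⟩, ⟨a2, -, -⟩, -⟩ := hG u v
    obtain ⟨-, ⟨b2, -, -⟩, -⟩ := hG v u
    rw [e00, e01] at a2 b2
    rw [e10, e01] at a1
    exact ⟨a2.symm, a1.symm.trans b2.symm⟩
  refine ⟨hsort, fun u v hu hv => ⟨fun h => ?_, ?_⟩⟩
  · by_contra huv
    obtain ⟨⟨-, -, a1⟩, -, a3, a4, ⟨-, r2, r3, -⟩, -⟩ := hG u v
    obtain ⟨-, -, b3, -, -⟩ := hG v u
    rw [e01] at b3
    rw [e01] at a3 a4 r2 r3
    rw [e10, e01] at a1
    have s1 : (zl z u v).1 = false := (hsort u v).1.trans hu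
    have s2 : (zl z v u).1 = false := (hsort v u).1.trans hv
    have s3 : (zl z u v).2.1 = false := (hsort u v).2.trans hv
    have c1 : eqv (zl z u v) 0 1 := a3 s1
    have c2 : eqv (zl z u v) 2 3 := by
      have h2 : (zl z v u).2.2.2 0 1 = true := b3 s2
      rw [a1] at h2
      exact h2
    have c3 : eqv (zl z u v) 1 3 := r3 1 0 3 (r2 0 1 c1) (r3 0 2 3 h c2)
    refine a4 ?_ (s1.trans s3.symm) h c3
    exact decide_eq_false huv
  · rintro rfl
    obtain ⟨-, ⟨-, -, a1⟩, -, -, ⟨r1, -, -, -⟩, -⟩ := hG u u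
    rw [e00, e01] at a1
    rw [e01] at r1
    have h2 : (zl z u u).2.2.2 0 0 = true := r1 0
    change (zl z u u).2.2.2 0 2 = true
    rw [a1]
    exact h2

end Pool.Agent.H14.TU
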