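import Pool.Agent.H85.TU.Targets

/-!
# Vaught's conjecture: two is true, three is everything (MP_5607ba_lc), row DIC: the dichotomy
without marked points
-/

set_option autoImplicit false

open Set Pool.Agent.H85.TU

namespace Pool.Agent.H14.TU

theorem pf_DIC (hCAA : T_CAA) (hTWN : T_TWN) (hCSB : T_CSB) : T_DIC := by
  intro ι _ ar D _ _ Y hY
  by_cases h : ∃ x, x ∈ Cov2 Y ∧ (A2 x ∨ A1 x)
  · obtain ⟨x, hx, hxA⟩ := h
    exact Or.inr (hCAA ι ar D Y x hx hxA)
  · refine hCSB ι ar D Y hY fun x hx => hTWN ι ar D x (fun h2 => ?_) fun h1 => ?_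
    · exact h ⟨x, hx, Or.inl h2⟩
    · exact h ⟨x, hx, Or.inr h1⟩

end Pool.Agent.H14.TU
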