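import Pool.Agent.H85.TU.Targets

/-!
# Vaught's conjecture: two is true, three is everything (MP_5607ba_lc), row EXP: the expansions of
the models are models of the normal form
-/

set_option autoImplicit false

open Set Pool.Agent.H85.TU

namespace Pool.Agent.H14.TU

section

variable {C : Type} [MeasurableSpace C]

private theorem noc (φ : F3 C) : NoCount φ → ∀ ψ ∈ subs φ, NoCount ψ := by
  induction φ with
  | label i B hB w =>
    rintro - ψ hψ
    rw [show ψ = _ from hψ]
    trivial
  | equal a b =>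
    rintro - ψ hψ
    rw [show ψ = _ from hψ]
    trivial
  | not φ ih =>
    rintro h ψ (hψ | hψ)
    · rw [show ψ = _ from hψ]
      exact h
    · exact ih h ψ hψ
  | conj φ ih =>
    rintro h ψ (hψ | hψ)
    · rw [show ψ = _ from hψ]
      exact h
    · obtain ⟨n, hn⟩ := mem_iUnion.1 hψ
      exact ih n (h n) ψ hn
  | ex a φ ih =>
    rintro h ψ (hψ | hψ)
    · rw [show ψ = _ from hψ]
      exact h
    · exact ih h ψ hψ
  | atLeast k a φ ih =>
    rintro h
    exact h.elim

private theorem self_mem (φ : F3 C) : φ ∈ subs φ := by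
  cases φ with
  | label i B hB w => exact rfl
  | equal a b => exact rfl
  | not φ => exact Or.inl rfl
  | conj φ => exact Or.inl rfl
  | ex a φ => exact Or.inl rfl
  | atLeast k a φ => exact Or.inl rfl

private theorem oth_all (a : Fin 3) (w v : Fin 3 → ℕ) (h : ∀ j, w (oth a j) = v (oth a j))
    (n : ℕ) : Function.update w a n = Function.update v a n := by
  funext b
  by_cases hb : b = a
  · rw [hb, Function.update_self, Function.update_self]
  · rw [Function.update_of_ne hb, Function.update_of_ne hb]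
    have h0 := h 0
    have h1 := h 1
    fin_cases a <;> fin_cases b <;> first | exact absurd rfl hb | exact h0 | exact h1

private theorem holds_tr (S : Set (F3 C)) (x : Str bar (bD C) ℕ) (ψ : F3 C) :
    NoCount ψ → subs ψ ⊆ S → ∀ v : Fin 3 → ℕ, Holds (exp3 S x) (tr S ψ) v ↔ Holds x ψ v := by
  classical
  induction ψ with
  | label i B hB w =>
    rintro - - v
    exact Iff.rfl
  | equal a b =>
    rintro - - v
    exact Iff.rfl
  | not φ ih =>
    intro h hS v
    exact not_congr (ih h (subset_union_right.trans hS) v)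
  | conj φ ih =>
    intro h hS v
    exact forall_congr' fun n => ih n (h n)
      (((subset_iUnion (fun n => subs (φ n)) n).trans subset_union_right).trans hS) v
  | ex a χ ih =>
    intro h hS v
    have hm : (.ex a χ : F3 C) ∈ S := hS (self_mem _)
    have e1 : Holds (exp3 S x) (tr S (.ex a χ)) v ↔
        ∃ w : Fin 3 → ℕ, (∀ j, w (oth a j) = v (oth a j)) ∧ Holds x (.ex a χ) w := by
      constructor
      · rintro ⟨h1, h2⟩
        exact of_decide_eq_true h2
      · intro h1
        exact ⟨hm, decide_eq_true h1⟩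
    rw [e1]
    constructor
    · rintro ⟨w, hw, n, hn⟩
      exact ⟨n, by rwa [← oth_all a w v hw]⟩
    · intro h1
      exact ⟨v, fun _ => rfl, h1⟩
  | atLeast k a φ ih =>
    intro h
    exact h.elim

private theorem holds_and2 {C' : Type} [MeasurableSpace C'] (y : Str bar (bD C') ℕ)
    (φ ψ : F3 C') (v : Fin 3 → ℕ) (h1 : Holds y φ v) (h2 : Holds y ψ v) :
    Holds y (and2 φ ψ) v := by
  intro n
  by_cases hn : n = 0
  · change Holds y (if n = 0 then φ else ψ) v
    rwa [if_pos hn]
  · change Holds y (if n = 0 then φ else ψ) v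
    rwa [if_neg hn]

private theorem of_and2 {C' : Type} [MeasurableSpace C'] {y : Str bar (bD C') ℕ}
    {φ ψ : F3 C'} {v : Fin 3 → ℕ} (h : Holds y (and2 φ ψ) v) : Holds y φ v ∧ Holds y ψ v :=
  ⟨h 0, h 1⟩

end

theorem pf_EXP (hSUB : T_SUB) : T_EXP := by
  intro C _ φ θ hφ hθ x hx v
  obtain ⟨S, hS⟩ : ∃ S, S = subs φ := ⟨_, rfl⟩
  have hsub : ∀ ψ ∈ S, subs ψ ⊆ S := by
    rw [hS]
    exact (hSUB C φ).2.2
  have key : ∀ ψ ∈ S, ∀ v : Fin 3 → ℕ, Holds (exp3 S x) (tr S ψ) v ↔ Holds x ψ v := by
    intro ψ hψ v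
    exact holds_tr S x ψ (noc φ hφ ψ (hS ▸ hψ)) (hsub ψ hψ) v
  have hnf : nf φ θ = and2 (tr (subs φ) φ) (.conj fun n => cnd (subs φ) (θ n)) := rfl
  rw [hnf, ← hS]
  refine holds_and2 _ _ _ _ ((key φ (hS ▸ self_mem φ) v).2 (hx v)) fun n => ?_
  change Holds (exp3 S x) (cnd S (θ n)) v
  have hn : θ n ∈ S := by
    rw [hS, ← hθ]
    exact mem_range_self n
  revert hn
  generalize θ n = ψ
  intro hψ
  cases ψ with
  | label i B hB w => exact fun h => Bool.false_ne_true h.2
  | equal a b => exact fun h => Bool.false_ne_true h.2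
  | not χ => exact fun h => Bool.false_ne_true h.2
  | conj χ => exact fun h => Bool.false_ne_true h.2
  | atLeast k a χ => exact fun h => Bool.false_ne_true h.2
  | ex a χ =>
    have hχ : χ ∈ S := hsub _ hψ (Or.inr (self_mem χ))
    refine holds_and2 _ _ _ _ ?_ ?_
    · intro h
      obtain ⟨h1, h2⟩ := of_and2 h
      refine h2 ((key _ hψ v).2 ⟨v a, ?_⟩)
      rw [Function.update_eq_self]
      exact (key _ hχ v).1 h1
    · by_cases hc : Holds x (.ex a χ) v
      · obtain ⟨n, hn⟩ := hc
        refine ⟨n, fun h => ?_⟩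
        obtain ⟨h1, h2⟩ := of_and2 h
        exact h2 ((key _ hχ _).2 hn)
      · refine ⟨0, fun h => ?_⟩
        obtain ⟨h1, h2⟩ := of_and2 h
        obtain ⟨m, hm⟩ := (key _ hψ _).1 h1
        rw [Function.update_idem] at hm
        exact hc ⟨m, hm⟩

end Pool.Agent.H14.TU
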