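import Pool.Agent.H85.TU.Targets2

/-!
# Vaught's conjecture, quantifier patterns (MP_5607ba_lc), row MSM: the matrices are Borel
-/

set_option autoImplicit false

open Set Pool.Agent.H85.TU

namespace Pool.Agent.H14.TU

private theorem meas_reidx {C : Type} [MeasurableSpace C] {m n : ℕ} (r : Fin m → Fin n) :
    Measurable fun t : TB C n => (reidx r t : TB C m) := by
  refine Measurable.prodMk ?_ ?_
  · refine measurable_pi_lambda _ fun i => measurable_pi_lambda _ fun v => ?_
    exact (measurable_pi_apply (r ∘ v)).comp ((measurable_pi_apply i).comp measurable_fst)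
  · refine measurable_pi_lambda _ fun i => measurable_pi_lambda _ fun j => ?_
    exact (measurable_pi_apply (r j)).comp ((measurable_pi_apply (r i)).comp measurable_snd)

private theorem meas_LL {C : Type} [MeasurableSpace C] {n : ℕ} (i j : Fin n) :
    Measurable fun t : TB (LC C) n => LL t i j :=
  (measurable_pi_apply ![i, j]).comp ((measurable_pi_apply ()).comp measurable_fst)

private theorem meas_s {C : Type} [MeasurableSpace C] :
    MeasurableSet {s : LC C | s.2.1 = false} :=
  (measurable_fst.comp measurable_snd) (measurableSet_singleton false)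

private theorem meas_eqv {C : Type} [MeasurableSpace C] (i j : Fin 4) :
    MeasurableSet {s : LC C | eqv s i j} := by
  have h : Measurable fun s : LC C => s.2.2.2 i j :=
    (measurable_pi_apply j).comp ((measurable_pi_apply i).comp
      (measurable_snd.comp (measurable_snd.comp measurable_snd)))
  exact h (measurableSet_singleton true)

theorem pf_MSM (hMSA : T_MSA) : T_MSM := by
  intro C _ _ α β len hα hβ hlen
  obtain ⟨hG, hT, h0, h1, hR⟩ := hMSA C α β len hα hβ hlen
  refine ⟨?_, ?_, ?_⟩
  · exact ((meas_reidx ![0, 1]) hG).inter (((meas_reidx ![0, 1, 2]) hR).inter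
      ((meas_reidx ![0, 1, 3]) hT))
  · exact ((meas_reidx ![0, 1]) hG).inter (((meas_reidx ![0, 1, 3]) hR).inter
      ((meas_reidx ![0, 1, 2]) hT))
  · exact ((meas_reidx ![0, 3]) hG).inter (((meas_reidx ![0, 3, 4]) hT).inter
      (((meas_LL 0 1) meas_s).inter (((meas_LL 0 1) (meas_eqv 0 2)).inter
      ((((meas_LL 0 3).prodMk (meas_LL 1 3)) h0).inter
      (((meas_LL 0 2) meas_s).inter (((meas_LL 0 2) (meas_eqv 1 2)).inter
      (((meas_LL 0 3).prodMk (meas_LL 2 3)) h1)))))))

end Pool.Agent.H14.TU
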